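import Pool.Agent.Q278.TH

set_option autoImplicit false

/-! The five congruences modulo `p ^ 2` for sums of products of central binomial coefficients and
generalized central trinomial coefficients. -/

namespace Pool.Agent.Results.MP_20e244_nt.Full

open Finset Polynomial

/-- `T_n(b, c)`: the coefficient of `x ^ n` in `(x ^ 2 + b x + c) ^ n`. -/
noncomputable def T (n : ℕ) (b c : ℤ) : ℤ := ((X ^ 2 + C b * X + C c : ℤ[X]) ^ n).coeff n

/-- The congruence `x ≡ y (mod p ^ 2)` of rational numbers: the difference lies in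
`p ^ 2 ℤ_(p)`, that is, it is `p ^ 2 u / v` with integers `u`, `v` and `v` prime to `p`. -/
def ModSq (p : ℕ) (x y : ℚ) : Prop :=
  ∃ (u : ℤ) (v : ℕ), ¬ p ∣ v ∧ x - y = (p : ℚ) ^ 2 * ((u : ℚ) / (v : ℚ))

/-- All five congruences hold for every prime `p > 3`. The Jacobi symbols `jacobiSym a p` and
`jacobiSym p 3` with prime lower entry are the Legendre symbols `(a / p)` and `(p / 3)`. -/
theorem result (p : ℕ) (hp : p.Prime) (h3 : 3 < p) :
    ModSq p (∑ j ∈ range p, (T j 1 1 : ℚ) * ((2 * j).choose j : ℚ) / 12 ^ j)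
      ((3 + 3 ^ (p - 1)) / 4 * (jacobiSym p 3 : ℚ)) ∧
    ModSq p (∑ j ∈ range ((p - 1) / 2 + 1), (T (2 * j) 4 1 : ℚ) * ((2 * j).choose j : ℚ) / 16 ^ j)
      1 ∧
    ModSq p (∑ j ∈ range ((p - 1) / 2 + 1),
        (T (2 * j) 4 1 : ℚ) * (((2 * j).choose j : ℚ) / ((j : ℚ) + 1)) / 16 ^ j)
      (4 / 3 * ((jacobiSym 3 p : ℚ) - p * (jacobiSym (-1) p : ℚ))) ∧
    ModSq p (∑ j ∈ range ((p - 1) / 2 + 1), (T (2 * j) 3 4 : ℚ) * ((2 * j).choose j : ℚ) / 4 ^ j)
      ((7 - 3 ^ p) / 4 * (jacobiSym (-1) p : ℚ)) ∧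
    ModSq p (∑ j ∈ range ((p - 1) / 2 + 1), (T (2 * j) 8 9 : ℚ) * ((2 * j).choose j : ℚ) / 16 ^ j)
      (jacobiSym 3 p : ℚ) := by
  have : Fact p.Prime := ⟨hp⟩
  have h2 : p % 2 = 1 := by
    rcases hp.eq_two_or_odd with h | h
    · omega
    · exact h
  have h33 : p % 3 ≠ 0 := by
    intro h0
    have := (Nat.prime_dvd_prime_iff_eq Nat.prime_three hp).1 (Nat.dvd_of_mod_eq_zero h0)
    omega
  have h5 : 5 ≤ p := by omega
  set h := (p - 1) / 2 with hh
  have hP : p = 2 * h + 1 := by omega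
  have key : ∀ x y : ℚ, x - y ∈ Q278.TD.M p 2 → ModSq p x y := by
    rintro x y ⟨z, hz, e⟩
    refine ⟨z.num, z.den, hz, ?_⟩
    rw [Rat.num_div_den]
    exact e
  have eT : ∀ (n : ℕ) (b c : ℤ), (T n b c : ℚ) = Q278.TA.T n b c := Q278.TH.T_int
  simp only [eT, ← Nat.centralBinom_eq_two_mul_choose]
  rw [Q278.TH.sym3 p h33, Q278.TH.sym_three hP h33, Q278.TH.sym_neg hP]
  have c0 := Q278.TG.cong0 hP h5
  have c1 := Q278.TF.cong1 hP
  have c2 := Q278.TF.cong2 hP h5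
  have c3 := Q278.TF.cong3 hP h5
  have c4 := Q278.TF.cong4 hP h5
  push_cast
  exact ⟨key _ _ c0, key _ _ c1, key _ _ c2, key _ _ c3, key _ _ c4⟩

end Pool.Agent.Results.MP_20e244_nt.Full
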